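import Pool.Agent.helper91.SF.Div

/-! Module ENZ of the block se (problem MP_d52931_gt). -/

set_option autoImplicit false

namespace SF

open MeasureTheory
open scoped ContDiff

/-- continuity of the slices of smooth functions -/
theorem ENZ_cont {f : ℝ → ℝ → ℝ → ℝ} (h : Sm f) (s : ℝ) :
    ContinuousOn (fun p : ℝ × ℝ => f s p.1 p.2) {p | 0 < p.2} := by
  have h1 : ContinuousOn (fun p : ℝ × ℝ => (s, p.1, p.2)) {p | 0 < p.2} := by fun_prop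
  exact h.continuousOn.comp h1 fun p hp => hp

theorem ENZ_y {p : ℝ × ℝ} (hp : p ∈ Dm) : 3 / 4 < p.2 ^ 2 := by
  obtain ⟨h1, h2, h3, h4⟩ := hp
  nlinarith

/-- `∫ |∇f|² = - ∫ f Δf`, in the form `∫ (|∇f|² + f Δf) = 0` -/
theorem ENZ_green (hBS : BS_stmt) (hEZ : EZ_stmt) (hDI : DI_stmt) (hDX : DX_stmt) (hDY : DY_stmt)
    (f : ℝ → ℝ → ℝ → ℝ) (hf : EW f) (s : ℝ) :
    IntegrableOn (fun p : ℝ × ℝ => ((dX f s p.1 p.2) ^ 2 + f s p.1 p.2 * dX (dX f) s p.1 p.2) +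
      ((dY f s p.1 p.2) ^ 2 + f s p.1 p.2 * dY (dY f) s p.1 p.2)) Dm ∧
    ∫ p in Dm, (((dX f s p.1 p.2) ^ 2 + f s p.1 p.2 * dX (dX f) s p.1 p.2) +
      ((dY f s p.1 p.2) ^ 2 + f s p.1 p.2 * dY (dY f) s p.1 p.2)) = 0 := by
  obtain ⟨hS, hX, hY, hd⟩ := hBS f hf.sm
  obtain ⟨_, hXX, _, hdX⟩ := hBS _ hX
  obtain ⟨_, _, hYY, hdY⟩ := hBS _ hY
  obtain ⟨C0, hC0⟩ := hf.dec 0 |s|
  obtain ⟨C2, hC2⟩ := hf.dec 2 |s|
  have cf := ENZ_cont hf.sm s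
  have cX := ENZ_cont hX s
  have cY := ENZ_cont hY s
  have cXX := ENZ_cont hXX s
  have cYY := ENZ_cont hYY s
  have cF' := (cX.pow 2).add (cf.mul cXX)
  have cG' := (cY.pow 2).add (cf.mul cYY)
  have hI : IntegrableOn (fun p : ℝ × ℝ => ((dX f s p.1 p.2) ^ 2 + f s p.1 p.2 * dX (dX f) s p.1 p.2) +
      ((dY f s p.1 p.2) ^ 2 + f s p.1 p.2 * dY (dY f) s p.1 p.2)) Dm := by
    refine hDI _ (C0 ^ 2 + C0 ^ 2 + |C0| * (|C0| + |C2|)) (cF'.add cG') fun p hp h1 => ?_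
    have hp2 : 0 < p.2 := hp.2.2.1
    obtain ⟨a1, a2, a3⟩ := hC0 s p.1 p.2 le_rfl h1
    obtain ⟨b1, _, _⟩ := hC2 s p.1 p.2 le_rfl h1
    simp only [Function.iterate_zero, id] at a1 a2 a3
    have hw := hf.wv s p.1 p.2 hp2
    have b1' : |dS (dS f) s p.1 p.2| ≤ C2 / p.2 := b1
    have e1 : ((dX f s p.1 p.2) ^ 2 + f s p.1 p.2 * dX (dX f) s p.1 p.2) +
      ((dY f s p.1 p.2) ^ 2 + f s p.1 p.2 * dY (dY f) s p.1 p.2) =
      (dX f s p.1 p.2) ^ 2 + (dY f s p.1 p.2) ^ 2 +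
        f s p.1 p.2 * ((dS (dS f) s p.1 p.2 - f s p.1 p.2) / (4 * p.2 ^ 2)) := by
      rw [hw]
      field_simp
      ring
    have a1' : |f s p.1 p.2| ≤ |C0| := a1.trans ((div_le_div_of_nonneg_right (le_abs_self C0)
      hp2.le).trans (div_le_self (abs_nonneg _) h1))
    have b1'' : |dS (dS f) s p.1 p.2| ≤ |C2| := b1'.trans ((div_le_div_of_nonneg_right
      (le_abs_self C2) hp2.le).trans (div_le_self (abs_nonneg _) h1))
    have hq : (1 : ℝ) ≤ p.2 ^ 2 := by nlinarith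
    have sq : ∀ t : ℝ, |t| ≤ C0 / p.2 ^ 2 → t ^ 2 ≤ C0 ^ 2 / p.2 ^ 2 := by
      intro t ht
      have h2 : t ^ 2 ≤ (C0 / p.2 ^ 2) ^ 2 := by
        rw [← sq_abs t]
        gcongr
      refine h2.trans ?_
      rw [div_pow]
      refine div_le_div_of_nonneg_left (sq_nonneg _) (by positivity) ?_
      nlinarith
    have h3 : |f s p.1 p.2 * ((dS (dS f) s p.1 p.2 - f s p.1 p.2) / (4 * p.2 ^ 2))| ≤
        |C0| * (|C0| + |C2|) / p.2 ^ 2 := by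
      rw [abs_mul, abs_div, abs_of_pos (show 0 < 4 * p.2 ^ 2 by positivity), mul_div_assoc]
      have h4 : |dS (dS f) s p.1 p.2 - f s p.1 p.2| ≤ |C0| + |C2| := by
        refine (abs_sub _ _).trans ?_
        linarith
      have h5 : |dS (dS f) s p.1 p.2 - f s p.1 p.2| / (4 * p.2 ^ 2) ≤ (|C0| + |C2|) / p.2 ^ 2 := by
        refine div_le_div₀ (by positivity) h4 (by positivity) ?_
        nlinarith
      exact mul_le_mul a1' h5 (by positivity) (abs_nonneg _)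
    rw [e1]
    calc |(dX f s p.1 p.2) ^ 2 + (dY f s p.1 p.2) ^ 2 +
        f s p.1 p.2 * ((dS (dS f) s p.1 p.2 - f s p.1 p.2) / (4 * p.2 ^ 2))| ≤
        |(dX f s p.1 p.2) ^ 2 + (dY f s p.1 p.2) ^ 2| +
        |f s p.1 p.2 * ((dS (dS f) s p.1 p.2 - f s p.1 p.2) / (4 * p.2 ^ 2))| := abs_add_le _ _
      _ ≤ (C0 ^ 2 / p.2 ^ 2 + C0 ^ 2 / p.2 ^ 2) + |C0| * (|C0| + |C2|) / p.2 ^ 2 := by
        rw [abs_of_nonneg (show 0 ≤ (dX f s p.1 p.2) ^ 2 + (dY f s p.1 p.2) ^ 2 by positivity)]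
        exact add_le_add (add_le_add (sq _ a2) (sq _ a3)) h3
      _ = (C0 ^ 2 + C0 ^ 2 + |C0| * (|C0| + |C2|)) / p.2 ^ 2 := by ring
  refine ⟨hI, ?_⟩
  refine ENZ_div hDX hDY hDI (fun p => f s p.1 p.2 * dX f s p.1 p.2)
    (fun p => (dX f s p.1 p.2) ^ 2 + f s p.1 p.2 * dX (dX f) s p.1 p.2)
    (fun p => f s p.1 p.2 * dY f s p.1 p.2)
    (fun p => (dY f s p.1 p.2) ^ 2 + f s p.1 p.2 * dY (dY f) s p.1 p.2) (|C0| * |C0|)
    cF' (cf.mul cY) cG' (fun x y hy => ?_) (fun x y hy => ?_) (fun y hy => ?_) (fun x y hy h => ?_)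
    (fun x y hy h => ?_) (fun p hp h1 => ?_) hI
  · have h1 := (hd s x y hy).2.1.mul (hdX s x y hy).2.1
    refine h1.congr_deriv ?_
    ring
  · have h1 := (hd s x y hy).2.2.1.mul (hdY s x y hy).2.2.1
    refine h1.congr_deriv ?_
    ring
  · obtain ⟨z1, z2, _, _⟩ := hEZ f hf s y hy
    exact ⟨by simp only [z1, zero_mul], by simp only [z2, zero_mul]⟩
  · obtain ⟨_, _, z3, _⟩ := hEZ f hf s y hy
    simp only [z3 x h, zero_mul]
  · obtain ⟨_, _, z3, _⟩ := hEZ f hf s y hy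
    simp only [z3 x h, zero_mul]
  · have hp2 : 0 < p.2 := hp.2.2.1
    obtain ⟨a1, a2, a3⟩ := hC0 s p.1 p.2 le_rfl h1
    simp only [Function.iterate_zero, id] at a1 a2 a3
    have a1' : |f s p.1 p.2| ≤ |C0| := a1.trans ((div_le_div_of_nonneg_right (le_abs_self C0)
      hp2.le).trans (div_le_self (abs_nonneg _) h1))
    have a3' : |dY f s p.1 p.2| ≤ |C0| / p.2 := by
      refine a3.trans (div_le_div₀ (abs_nonneg _) (le_abs_self _) hp2 ?_)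
      nlinarith
    rw [abs_mul, mul_div_assoc]
    exact mul_le_mul a1' a3' (abs_nonneg _) (abs_nonneg _)

theorem ENZ (hBS : BS_stmt) (hEZ : EZ_stmt) (hDI : DI_stmt) (hDX : DX_stmt) (hDY : DY_stmt) :
    ENZ_stmt := by
  intro f hf s δ M hδ h0 h1 h2
  obtain ⟨hg, hz⟩ := ENZ_green hBS hEZ hDI hDX hDY f hf s
  obtain ⟨hS, hX, hY, hd⟩ := hBS f hf.sm
  obtain ⟨hSS, _, _, _⟩ := hBS _ hS
  have cf := ENZ_cont hf.sm s
  have cS := ENZ_cont hS s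
  have cSS := ENZ_cont hSS s
  -- integrability of the squares
  have hq : ∀ g : ℝ → ℝ → ℝ → ℝ, Sm g → (∃ C : ℝ, ∀ x y : ℝ, 1 ≤ y → |g s x y| ≤ C / y) →
      IntegrableOn (fun p : ℝ × ℝ => g s p.1 p.2 ^ 2) Dm := by
    intro g hg hC
    obtain ⟨C, hC⟩ := hC
    refine hDI _ (C ^ 2) ((ENZ_cont hg s).pow 2) fun p hp h1 => ?_
    rw [abs_pow, ← div_pow]
    have := hC p.1 p.2 h1
    gcongr
  have i0 : IntegrableOn (fun p : ℝ × ℝ => f s p.1 p.2 ^ 2) Dm := by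
    obtain ⟨C, hC⟩ := hf.dec 0 |s|
    exact hq f hf.sm ⟨C, fun x y hy => (hC s x y le_rfl hy).1⟩
  have i1 : IntegrableOn (fun p : ℝ × ℝ => dS f s p.1 p.2 ^ 2) Dm := by
    obtain ⟨C, hC⟩ := hf.dec 1 |s|
    exact hq _ hS ⟨C, fun x y hy => (hC s x y le_rfl hy).1⟩
  have i2 : IntegrableOn (fun p : ℝ × ℝ => dS (dS f) s p.1 p.2 ^ 2) Dm := by
    obtain ⟨C, hC⟩ := hf.dec 2 |s|
    exact hq _ hSS ⟨C, fun x y hy => (hC s x y le_rfl hy).1⟩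
  -- the parameter
  obtain ⟨t, ht0, ht1, ht2⟩ : ∃ t : ℝ, 0 < t ∧ t * δ ^ 2 = |M| * δ + δ ^ 2 ∧ M ^ 2 / t ≤ |M| * δ := by
    refine ⟨(|M| + δ) / δ, by positivity, ?_, ?_⟩
    · field_simp
    · rw [div_le_iff₀ (by positivity), ← sq_abs M]
      have : |M| * δ * ((|M| + δ) / δ) = |M| * (|M| + δ) := by field_simp
      rw [this]
      nlinarith [abs_nonneg M]
  have j0 : IntegrableOn (fun p : ℝ × ℝ => t / 6 * f s p.1 p.2 ^ 2) Dm := i0.const_mul _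
  have j1 : IntegrableOn (fun p : ℝ × ℝ => 1 / 3 * dS f s p.1 p.2 ^ 2) Dm := i1.const_mul _
  have j2 : IntegrableOn (fun p : ℝ × ℝ => 1 / (6 * t) * dS (dS f) s p.1 p.2 ^ 2) Dm :=
    i2.const_mul _
  have j3 : IntegrableOn (fun p : ℝ × ℝ => t / 6 * f s p.1 p.2 ^ 2 +
    1 / (6 * t) * dS (dS f) s p.1 p.2 ^ 2) Dm := j0.add j2
  have j4 : IntegrableOn (fun p : ℝ × ℝ => 1 / 3 * dS f s p.1 p.2 ^ 2 + (t / 6 * f s p.1 p.2 ^ 2 +
    1 / (6 * t) * dS (dS f) s p.1 p.2 ^ 2)) Dm := j1.add j3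
  have iR : IntegrableOn (fun p : ℝ × ℝ => (((dX f s p.1 p.2) ^ 2 + f s p.1 p.2 * dX (dX f) s p.1 p.2) +
      ((dY f s p.1 p.2) ^ 2 + f s p.1 p.2 * dY (dY f) s p.1 p.2)) +
      (1 / 3 * dS f s p.1 p.2 ^ 2 + (t / 6 * f s p.1 p.2 ^ 2 + 1 / (6 * t) * dS (dS f) s p.1 p.2 ^ 2))) Dm :=
    hg.add j4
  have hle : En f s ≤ ∫ p in Dm, ((((dX f s p.1 p.2) ^ 2 + f s p.1 p.2 * dX (dX f) s p.1 p.2) +
      ((dY f s p.1 p.2) ^ 2 + f s p.1 p.2 * dY (dY f) s p.1 p.2)) +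
      (1 / 3 * dS f s p.1 p.2 ^ 2 + (t / 6 * f s p.1 p.2 ^ 2 +
        1 / (6 * t) * dS (dS f) s p.1 p.2 ^ 2))) := by
    unfold En
    by_cases hint : IntegrableOn (fun p : ℝ × ℝ => (dS f s p.1 p.2) ^ 2 / (4 * p.2 ^ 2) +
        (dX f s p.1 p.2) ^ 2 + (dY f s p.1 p.2) ^ 2 - (f s p.1 p.2) ^ 2 / (4 * p.2 ^ 2)) Dm
    · refine setIntegral_mono_on hint iR ENZ_ms fun p hp => ?_
      have hp2 : 0 < p.2 := hp.2.2.1
      have hy := ENZ_y hp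
      have hw := hf.wv s p.1 p.2 hp2
      have e1 : f s p.1 p.2 * dX (dX f) s p.1 p.2 + f s p.1 p.2 * dY (dY f) s p.1 p.2 =
          f s p.1 p.2 * dS (dS f) s p.1 p.2 / (4 * p.2 ^ 2) - f s p.1 p.2 ^ 2 / (4 * p.2 ^ 2) := by
        rw [hw]
        field_simp
        ring
      have hk : 1 / (4 * p.2 ^ 2) ≤ 1 / 3 := by
        rw [div_le_div_iff₀ (by positivity) (by norm_num)]
        linarith
      have hk0 : 0 ≤ 1 / (4 * p.2 ^ 2) := by positivity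
      have e2 : (dS f s p.1 p.2) ^ 2 / (4 * p.2 ^ 2) ≤ 1 / 3 * dS f s p.1 p.2 ^ 2 := by
        rw [div_eq_mul_one_div, mul_comm]
        exact mul_le_mul_of_nonneg_right hk (sq_nonneg _)
      have e3 : -(f s p.1 p.2 * dS (dS f) s p.1 p.2 / (4 * p.2 ^ 2)) ≤
          t / 6 * f s p.1 p.2 ^ 2 + 1 / (6 * t) * dS (dS f) s p.1 p.2 ^ 2 := by
        have h3 : -(f s p.1 p.2 * dS (dS f) s p.1 p.2) ≤
            t / 2 * f s p.1 p.2 ^ 2 + 1 / (2 * t) * dS (dS f) s p.1 p.2 ^ 2 := by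
          have h4 : 0 ≤ 1 / (2 * t) * (t * f s p.1 p.2 + dS (dS f) s p.1 p.2) ^ 2 := by positivity
          have h5 : 1 / (2 * t) * (t * f s p.1 p.2 + dS (dS f) s p.1 p.2) ^ 2 =
              t / 2 * f s p.1 p.2 ^ 2 + f s p.1 p.2 * dS (dS f) s p.1 p.2 +
              1 / (2 * t) * dS (dS f) s p.1 p.2 ^ 2 := by
            field_simp
            ring
          linarith
        have h6 : 0 ≤ t / 2 * f s p.1 p.2 ^ 2 + 1 / (2 * t) * dS (dS f) s p.1 p.2 ^ 2 := by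
          positivity
        calc -(f s p.1 p.2 * dS (dS f) s p.1 p.2 / (4 * p.2 ^ 2)) =
            1 / (4 * p.2 ^ 2) * -(f s p.1 p.2 * dS (dS f) s p.1 p.2) := by ring
          _ ≤ 1 / (4 * p.2 ^ 2) * (t / 2 * f s p.1 p.2 ^ 2 +
              1 / (2 * t) * dS (dS f) s p.1 p.2 ^ 2) := mul_le_mul_of_nonneg_left h3 hk0
          _ ≤ 1 / 3 * (t / 2 * f s p.1 p.2 ^ 2 +
              1 / (2 * t) * dS (dS f) s p.1 p.2 ^ 2) := mul_le_mul_of_nonneg_right hk h6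
          _ = t / 6 * f s p.1 p.2 ^ 2 + 1 / (6 * t) * dS (dS f) s p.1 p.2 ^ 2 := by
            field_simp
            ring
      linarith
    · rw [integral_undef hint]
      rw [integral_add hg j4, hz, zero_add]
      exact integral_nonneg fun p => by positivity
  refine hle.trans ?_
  rw [integral_add hg j4, hz, zero_add, integral_add j1 j3, integral_add j0 j2,
    integral_const_mul, integral_const_mul, integral_const_mul]
  have h3 : t / 6 * ∫ p in Dm, f s p.1 p.2 ^ 2 ≤ t / 6 * δ ^ 2 := by gcongr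
  have h4 : 1 / (6 * t) * ∫ p in Dm, dS (dS f) s p.1 p.2 ^ 2 ≤ 1 / (6 * t) * M ^ 2 := by gcongr
  have h5 : 1 / (6 * t) * M ^ 2 = 1 / 6 * (M ^ 2 / t) := by
    field_simp
  have h6 : t / 6 * δ ^ 2 = 1 / 6 * (|M| * δ + δ ^ 2) := by
    rw [← ht1]
    ring
  have h7 : 0 ≤ |M| * δ := by positivity
  have h8 : 0 ≤ δ ^ 2 := by positivity
  nlinarith

end SF
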