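import Pool.Agent.helper1.SF.SpecA

/-! Module sa:ZSB of problem MP_d52931_gt. -/

set_option autoImplicit false

namespace SF

open Pool.Agent.helper72.Sq MeasureTheory Set
open scoped ContDiff

theorem ZSB_BB {l l' y : ℝ} (hl : 1 ≤ l) : 0 < BB l l' y := by
  unfold BB
  positivity

theorem ZSB_BB_le {l l' y : ℝ} (hl : 1 ≤ l) (hl' : 1 ≤ l') (hy0 : 0 ≤ y) (hy : y ≤ 1) :
    BB l l' y ≤ (l + l') ^ 2 := by
  unfold BB
  have h1 : y ^ 2 ≤ 1 := by nlinarith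
  have h2 : y ^ 2 * l' ^ 2 ≤ 1 * l' ^ 2 := by gcongr
  nlinarith

/-- the integrand -/
theorem ZSB_eq {l l' σ y : ℝ} (v : ℤ × ℤ) (hl : 1 ≤ l) :
    1 / √(σ - Av l l' v y) = √(25 * BB l l' y) *
      (1 / √((25 * σ * l ^ 2 - (v.2 : ℝ) ^ 2) - ((v.1 : ℝ) ^ 2 - 25 * σ * l' ^ 2) * y ^ 2)) := by
  have hB := ZSB_BB (l' := l') (y := y) hl
  have h1 : σ - Av l l' v y = ((25 * σ * l ^ 2 - (v.2 : ℝ) ^ 2) -
      ((v.1 : ℝ) ^ 2 - 25 * σ * l' ^ 2) * y ^ 2) / (25 * BB l l' y) := by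
    have h2 : 25 * BB l l' y ≠ 0 := by positivity
    rw [eq_div_iff h2, Av, sub_mul, div_mul_cancel₀ _ h2, nv, BB]
    ring
  rw [h1, Real.sqrt_div' _ (by positivity), one_div_div, div_eq_mul_one_div]

theorem ZSB_Icc (N : ℕ) (f : ℤ → ℝ) :
    ∑ p ∈ Finset.Icc (-((N + 1 : ℕ) : ℤ)) ((N + 1 : ℕ) : ℤ), f p =
      ∑ p ∈ Finset.Icc (-(N : ℤ)) N, f p + f ((N + 1 : ℕ) : ℤ) + f (-((N + 1 : ℕ) : ℤ)) := by
  have h : Finset.Icc (-((N + 1 : ℕ) : ℤ)) ((N + 1 : ℕ) : ℤ) =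
      insert (((N + 1 : ℕ) : ℤ)) (insert (-((N + 1 : ℕ) : ℤ)) (Finset.Icc (-(N : ℤ)) N)) := by
    ext p
    simp only [Finset.mem_Icc, Finset.mem_insert]
    omega
  rw [h, Finset.sum_insert (by simp only [Finset.mem_insert, Finset.mem_Icc]; omega),
    Finset.sum_insert (by simp only [Finset.mem_Icc]; omega)]
  ring

theorem ZSB_harm (N : ℕ) : ∑ p ∈ Finset.Icc (-(N : ℤ)) N, 1 / |(p : ℝ)| = 2 * (harmonic N : ℝ) := by
  induction N with
  | zero => simp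
  | succ N ih =>
    rw [ZSB_Icc, ih, harmonic_succ]
    push_cast
    rw [abs_neg, abs_of_nonneg (by positivity : (0 : ℝ) ≤ (N : ℝ) + 1)]
    ring

theorem ZSB (hZPA : ZPA_stmt) : ZSB_stmt := by
  obtain ⟨C0, hC0, hZ⟩ := hZPA
  refine ⟨1785 * C0 + 9690, by positivity, ?_⟩
  intro l l' δ y0 σ hl hl' hδ hδ1 hy0 hy1 hNR hσ hσ2 hσδ T
  obtain ⟨L, hL⟩ : ∃ L, L = l + l' := ⟨_, rfl⟩
  have hL2 : 2 ≤ L := by linarith
  have hy01 : y0 ≤ 1 := by linarith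
  -- notation
  obtain ⟨ℓ, hℓ⟩ : ∃ ℓ, ℓ = Real.log (1 / y0) := ⟨_, rfl⟩
  have hℓ1 : 1 ≤ 2 * ℓ := by
    have h1 : Real.log 2 ≤ ℓ := by
      rw [hℓ]
      refine Real.log_le_log two_pos ?_
      rw [le_div_iff₀ hy0]
      linarith
    have := Real.log_two_gt_d9
    linarith
  have hsδ : 0 < √δ := Real.sqrt_pos.2 hδ
  have hsδ1 : √δ ≤ 1 := Real.sqrt_le_one.2 hδ1
  have hBle : ∀ y ∈ Set.Icc y0 1, √(25 * BB l l' y) ≤ 5 * L := by
    intro y hy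
    have h1 := ZSB_BB_le hl hl' (hy0.le.trans hy.1) hy.2
    rw [← hL] at h1
    have h2 : 25 * BB l l' y ≤ (5 * L) ^ 2 := by nlinarith
    calc √(25 * BB l l' y) ≤ √((5 * L) ^ 2) := Real.sqrt_le_sqrt h2
      _ = 5 * L := Real.sqrt_sq (by positivity)
  -- integrability
  have hcont : Continuous fun y : ℝ => √(25 * BB l l' y) := by
    unfold BB
    fun_prop
  have hint : ∀ v : ℤ × ℤ, IntervalIntegrable (fun y => 1 / √(σ - Av l l' v y)) volume y0 1 := by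
    intro v
    have h1 := (hZ ((v.1 : ℝ) ^ 2 - 25 * σ * l' ^ 2) (25 * σ * l ^ 2 - (v.2 : ℝ) ^ 2) δ y0 hδ hy0
      hy1).1
    have h2 := h1.continuousOn_mul (hcont.continuousOn (s := Set.uIcc y0 1))
    refine h2.congr fun y _ => ?_
    exact (ZSB_eq v hl).symm
  have hcmp : ∀ (v : ℤ × ℤ) (b : ℝ), ∫ y in y0..1, 1 / √((25 * σ * l ^ 2 - (v.2 : ℝ) ^ 2) -
      ((v.1 : ℝ) ^ 2 - 25 * σ * l' ^ 2) * y ^ 2) ≤ b →
      ∫ y in y0..1, 1 / √(σ - Av l l' v y) ≤ 5 * L * b := by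
    intro v b hb
    have h1 := (hZ ((v.1 : ℝ) ^ 2 - 25 * σ * l' ^ 2) (25 * σ * l ^ 2 - (v.2 : ℝ) ^ 2) δ y0 hδ hy0
      hy1).1
    have h2 : ∫ y in y0..1, 1 / √(σ - Av l l' v y) ≤
        ∫ y in y0..1, 5 * L * (1 / √((25 * σ * l ^ 2 - (v.2 : ℝ) ^ 2) -
      ((v.1 : ℝ) ^ 2 - 25 * σ * l' ^ 2) * y ^ 2)) := by
      refine intervalIntegral.integral_mono_on hy01 (hint v) (h1.const_mul _) fun y hy => ?_
      rw [ZSB_eq v hl]
      exact mul_le_mul_of_nonneg_right (hBle y hy) (by positivity)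
    rw [intervalIntegral.integral_const_mul] at h2
    exact h2.trans (mul_le_mul_of_nonneg_left hb (by positivity))
  have hnn : ∀ v : ℤ × ℤ, 0 ≤ ∫ y in y0..1, 1 / √(σ - Av l l' v y) := fun v =>
    intervalIntegral.integral_nonneg hy01 fun y _ => by positivity
  -- vectors outside of the box
  have hzero : ∀ v : ℤ × ℤ, (8 * L ≤ |(v.2 : ℝ)| ∨ 8 * L ≤ |(v.1 : ℝ)| * y0) →
      ∫ y in y0..1, 1 / √(σ - Av l l' v y) = 0 := by
    intro v hv
    have h0 : ∀ y ∈ Set.uIcc y0 1, 1 / √(σ - Av l l' v y) = 0 := by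
      intro y hy
      rw [Set.uIcc_of_le hy01] at hy
      have hB := ZSB_BB (l' := l') (y := y) hl
      have hB2 := ZSB_BB_le hl hl' (hy0.le.trans hy.1) hy.2
      rw [← hL] at hB2
      have h1 : 64 * L ^ 2 ≤ nv v y := by
        unfold nv
        rcases hv with hv | hv
        · have h2 : (8 * L) ^ 2 ≤ (v.2 : ℝ) ^ 2 := by
            rw [← sq_abs (v.2 : ℝ)]
            gcongr
          nlinarith [mul_nonneg (sq_nonneg (v.1 : ℝ)) (sq_nonneg y)]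
        · have h2 : (8 * L) ^ 2 ≤ (v.1 : ℝ) ^ 2 * y ^ 2 := by
            rw [← sq_abs (v.1 : ℝ), ← mul_pow]
            have h3 : |(v.1 : ℝ)| * y0 ≤ |(v.1 : ℝ)| * y :=
              mul_le_mul_of_nonneg_left hy.1 (abs_nonneg _)
            exact pow_le_pow_left₀ (by positivity) (hv.trans h3) 2
          nlinarith [sq_nonneg (v.2 : ℝ)]
      have h2 : σ - Av l l' v y ≤ 0 := by
        rw [sub_nonpos, Av, le_div_iff₀ (by positivity)]
        nlinarith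
      rw [Real.sqrt_eq_zero_of_nonpos h2, div_zero]
    rw [intervalIntegral.integral_congr h0]
    simp
  -- the two bounds
  have hb1 : ∀ v : ℤ × ℤ, ∫ y in y0..1, 1 / √(σ - Av l l' v y) ≤ 5 * L * (C0 / √δ * ℓ) := by
    intro v
    refine hcmp v _ ?_
    rw [hℓ]
    refine (hZ ((v.1 : ℝ) ^ 2 - 25 * σ * l' ^ 2) (25 * σ * l ^ 2 - (v.2 : ℝ) ^ 2) δ y0 hδ hy0
      hy1).2.1 ?_
    have key : ∀ (p a : ℝ), 1 ≤ a → a ≤ L → δ ≤ |(|p| - 5 * a)| → 4 * δ ≤ |p ^ 2 - 25 * σ * a ^ 2| := by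
      intro p a ha haL h
      have h1 : |p ^ 2 - 25 * a ^ 2| = |(|p| - 5 * a)| * (|p| + 5 * a) := by
        rw [← abs_of_nonneg (show 0 ≤ |p| + 5 * a by positivity), ← abs_mul]
        congr 1
        have := sq_abs p
        nlinarith
      have h2 : 5 * δ ≤ |p ^ 2 - 25 * a ^ 2| := by
        rw [h1]
        have : 5 ≤ |p| + 5 * a := by linarith [abs_nonneg p]
        nlinarith
      have h3 : 25 * (σ - 1) * a ^ 2 ≤ δ := by
        refine le_trans ?_ hσδ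
        rw [← hL]
        have : a ^ 2 ≤ L ^ 2 := by gcongr
        have h4 : 0 ≤ 25 * (σ - 1) := by linarith
        exact mul_le_mul_of_nonneg_left this h4
      have h4 : 0 ≤ 25 * (σ - 1) * a ^ 2 := by
        have : 0 ≤ 25 * (σ - 1) := by linarith
        positivity
      have h5 : |p ^ 2 - 25 * a ^ 2| ≤ |p ^ 2 - 25 * σ * a ^ 2| + |25 * (σ - 1) * a ^ 2| := by
        have h6 : p ^ 2 - 25 * a ^ 2 = (p ^ 2 - 25 * σ * a ^ 2) + 25 * (σ - 1) * a ^ 2 := by ring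
        rw [h6]
        exact abs_add_le _ _
      rw [abs_of_nonneg h4] at h5
      linarith
    rcases hNR |v.1| |v.2| with h | h
    · left
      refine key _ l' hl' (by linarith) ?_
      push_cast at h
      exact h
    · right
      rw [abs_sub_comm]
      refine key _ l hl (by linarith) ?_
      push_cast at h
      exact h
  have hb2 : ∀ v : ℤ × ℤ, 10 * l' < |(v.1 : ℝ)| → ∫ y in y0..1, 1 / √(σ - Av l l' v y) ≤
      15 * L * (1 / |(v.1 : ℝ)|) := by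
    intro v hv
    have hp : 0 < |(v.1 : ℝ)| := by linarith
    have h1 : (v.1 : ℝ) ^ 2 / 2 ≤ (v.1 : ℝ) ^ 2 - 25 * σ * l' ^ 2 := by
      have h2 : (10 * l') ^ 2 < (v.1 : ℝ) ^ 2 := by
        rw [← sq_abs (v.1 : ℝ)]
        gcongr
      nlinarith [sq_nonneg l']
    have h3 : 0 < (v.1 : ℝ) ^ 2 := by
      rw [← sq_abs]
      positivity
    have h4 : 0 < (v.1 : ℝ) ^ 2 - 25 * σ * l' ^ 2 := by linarith
    have h5 := (hZ ((v.1 : ℝ) ^ 2 - 25 * σ * l' ^ 2) (25 * σ * l ^ 2 - (v.2 : ℝ) ^ 2) δ y0 hδ hy0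
      hy1).2.2 h4
    refine (hcmp v _ h5).trans ?_
    have h6 : 2 / 3 * |(v.1 : ℝ)| ≤ √((v.1 : ℝ) ^ 2 - 25 * σ * l' ^ 2) := by
      refine Real.le_sqrt_of_sq_le ?_
      rw [mul_pow, sq_abs]
      nlinarith
    have h7 : 2 / √((v.1 : ℝ) ^ 2 - 25 * σ * l' ^ 2) ≤ 3 * (1 / |(v.1 : ℝ)|) := by
      rw [mul_one_div, div_le_div_iff₀ (by positivity) hp]
      linarith
    calc 5 * L * (2 / √((v.1 : ℝ) ^ 2 - 25 * σ * l' ^ 2)) ≤ 5 * L * (3 * (1 / |(v.1 : ℝ)|)) := by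
          gcongr
      _ = 15 * L * (1 / |(v.1 : ℝ)|) := by ring
  refine ⟨fun v _ => hint v, ?_⟩
  -- the sum
  classical
  obtain ⟨N1, hN1⟩ : ∃ N1, N1 = ⌊10 * l'⌋₊ := ⟨_, rfl⟩
  obtain ⟨N2, hN2⟩ : ∃ N2, N2 = ⌊8 * L⌋₊ := ⟨_, rfl⟩
  obtain ⟨N3, hN3⟩ : ∃ N3, N3 = ⌊8 * L / y0⌋₊ := ⟨_, rfl⟩
  have hmemIcc : ∀ (p : ℤ) (a : ℝ) (N : ℕ), N = ⌊a⌋₊ → |(p : ℝ)| ≤ a →
      p ∈ Finset.Icc (-(N : ℤ)) N := by
    intro p a N hN hp
    have h1 : (p.natAbs : ℝ) ≤ a := by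
      rw [Nat.cast_natAbs, Int.cast_abs]
      exact hp
    have h2 : p.natAbs ≤ N := by
      rw [hN]
      exact Nat.le_floor h1
    rw [Finset.mem_Icc]
    omega
  have hc1 : 0 ≤ 5 * L * (C0 / √δ * ℓ) := by
    have : 0 ≤ ℓ := by linarith
    positivity
  obtain ⟨b, hb⟩ : ∃ b : ℤ → ℝ, ∀ p, b p = 5 * L * (C0 / √δ * ℓ) *
      (if |(p : ℝ)| ≤ 10 * l' then 1 else 0) + 15 * L * (1 / |(p : ℝ)|) := ⟨_, fun _ => rfl⟩
  have hbn : ∀ p, 0 ≤ b p := by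
    intro p
    rw [hb]
    have : (0 : ℝ) ≤ if |(p : ℝ)| ≤ 10 * l' then 1 else 0 := by split_ifs <;> norm_num
    positivity
  have hIb : ∀ v : ℤ × ℤ, ∫ y in y0..1, 1 / √(σ - Av l l' v y) ≤ b v.1 := by
    intro v
    rw [hb]
    split_ifs with h
    · have h1 := hb1 v
      have h2 : 0 ≤ 15 * L * (1 / |(v.1 : ℝ)|) := by positivity
      linarith
    · have h1 := hb2 v (not_le.1 h)
      rw [mul_zero, zero_add]
      exact h1
  have hsum1 : ∑ v ∈ T, ∫ y in y0..1, 1 / √(σ - Av l l' v y) ≤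
      ∑ v ∈ Finset.Icc (-(N3 : ℤ)) N3 ×ˢ Finset.Icc (-(N2 : ℤ)) N2, b v.1 := by
    have h1 : ∑ v ∈ T, ∫ y in y0..1, 1 / √(σ - Av l l' v y) =
        ∑ v ∈ T.filter (· ∈ Finset.Icc (-(N3 : ℤ)) N3 ×ˢ Finset.Icc (-(N2 : ℤ)) N2),
          ∫ y in y0..1, 1 / √(σ - Av l l' v y) := by
      refine (Finset.sum_subset (Finset.filter_subset _ _) fun v hv hv' => ?_).symm
      refine hzero v ?_
      by_contra hcon
      push Not at hcon
      refine hv' (Finset.mem_filter.2 ⟨hv, Finset.mem_product.2 ⟨?_, ?_⟩⟩)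
      · refine hmemIcc v.1 (8 * L / y0) N3 hN3 ?_
        rw [le_div_iff₀ hy0]
        exact hcon.2.le
      · exact hmemIcc v.2 (8 * L) N2 hN2 hcon.1.le
    rw [h1]
    refine (Finset.sum_le_sum fun v _ => hIb v).trans ?_
    refine Finset.sum_le_sum_of_subset_of_nonneg (fun v hv => (Finset.mem_filter.1 hv).2)
      fun v _ _ => hbn v.1
  have hsum2 : ∑ v ∈ Finset.Icc (-(N3 : ℤ)) N3 ×ˢ Finset.Icc (-(N2 : ℤ)) N2, b v.1 =
      (2 * N2 + 1) * ∑ p ∈ Finset.Icc (-(N3 : ℤ)) N3, b p := by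
    rw [Finset.sum_product, Finset.mul_sum]
    refine Finset.sum_congr rfl fun p _ => ?_
    show ∑ _y ∈ Finset.Icc (-(N2 : ℤ)) N2, b p = (2 * N2 + 1) * b p
    rw [Finset.sum_const, nsmul_eq_mul, Int.card_Icc]
    congr 1
    have h1 : ((N2 : ℤ) + 1 - -(N2 : ℤ)).toNat = 2 * N2 + 1 := by omega
    rw [h1]
    push_cast
    ring
  have hsum3 : ∑ p ∈ Finset.Icc (-(N3 : ℤ)) N3, b p ≤
      5 * L * (C0 / √δ * ℓ) * (2 * N1 + 1) + 15 * L * (2 * (harmonic N3 : ℝ)) := by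
    rw [Finset.sum_congr rfl fun p _ => hb p, Finset.sum_add_distrib, ← Finset.mul_sum,
      ← Finset.mul_sum, ZSB_harm]
    refine add_le_add ?_ le_rfl
    refine mul_le_mul_of_nonneg_left ?_ hc1
    rw [← Finset.sum_filter, Finset.sum_const, nsmul_eq_mul, mul_one]
    have h1 : (Finset.Icc (-(N3 : ℤ)) N3).filter (fun p : ℤ => |(p : ℝ)| ≤ 10 * l') ⊆
        Finset.Icc (-(N1 : ℤ)) N1 := fun p hp =>
      hmemIcc p _ N1 hN1 (Finset.mem_filter.1 hp).2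
    have h2 := Finset.card_le_card h1
    rw [Int.card_Icc] at h2
    have h3 : ((N1 : ℤ) + 1 - -(N1 : ℤ)).toNat = 2 * N1 + 1 := by omega
    rw [h3] at h2
    exact_mod_cast h2
  have hN2' : (2 * (N2 : ℝ) + 1) ≤ 17 * L := by
    have : (N2 : ℝ) ≤ 8 * L := by
      rw [hN2]
      exact Nat.floor_le (by positivity)
    linarith
  have hN1' : (2 * (N1 : ℝ) + 1) ≤ 21 * L := by
    have : (N1 : ℝ) ≤ 10 * l' := by
      rw [hN1]
      exact Nat.floor_le (by positivity)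
    linarith
  have hharm : (harmonic N3 : ℝ) ≤ 19 * L * ℓ := by
    have h1 := harmonic_le_one_add_log N3
    have h2 : 1 ≤ 8 * L / y0 := by
      rw [le_div_iff₀ hy0]
      nlinarith
    have h3 : (1 : ℝ) ≤ N3 := by
      have : 1 ≤ N3 := by
        rw [hN3]
        exact Nat.le_floor (by exact_mod_cast h2)
      exact_mod_cast this
    have h4 : Real.log N3 ≤ Real.log (8 * L / y0) := by
      refine Real.log_le_log (by linarith) ?_
      rw [hN3]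
      exact Nat.floor_le (by positivity)
    have h5 : Real.log (8 * L / y0) = Real.log (8 * L) + ℓ := by
      rw [hℓ, div_eq_mul_one_div, Real.log_mul (by positivity) (by positivity)]
    have h6 : Real.log (8 * L) ≤ 8 * L - 1 := Real.log_le_sub_one_of_pos (by positivity)
    have h7 : 0 < ℓ := by linarith
    nlinarith
  have hL1 : 1 ≤ L := by linarith
  have hℓ0 : 0 < ℓ := by linarith
  calc ∑ v ∈ T, ∫ y in y0..1, 1 / √(σ - Av l l' v y) ≤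
      (2 * N2 + 1) * ∑ p ∈ Finset.Icc (-(N3 : ℤ)) N3, b p := hsum1.trans hsum2.le
    _ ≤ (17 * L) * (5 * L * (C0 / √δ * ℓ) * (21 * L) + 15 * L * (2 * (19 * L * ℓ))) := by
        refine mul_le_mul hN2' (hsum3.trans ?_) (Finset.sum_nonneg fun p _ => hbn p) (by positivity)
        gcongr
    _ = 1785 * C0 * L ^ 3 * ℓ / √δ + 9690 * L ^ 3 * ℓ := by
        field_simp
        ring
    _ ≤ 1785 * C0 * L ^ 4 * ℓ / √δ + 9690 * L ^ 4 * ℓ / √δ := by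
        have h1 : L ^ 3 ≤ L ^ 4 := pow_le_pow_right₀ hL1 (by norm_num)
        have h2 : 9690 * L ^ 3 * ℓ ≤ 9690 * L ^ 4 * ℓ / √δ := by
          rw [le_div_iff₀ hsδ]
          calc 9690 * L ^ 3 * ℓ * √δ ≤ 9690 * L ^ 4 * ℓ * 1 := by gcongr
            _ = 9690 * L ^ 4 * ℓ := mul_one _
        have h3 : 1785 * C0 * L ^ 3 * ℓ / √δ ≤ 1785 * C0 * L ^ 4 * ℓ / √δ := by gcongr
        exact add_le_add h3 h2
    _ = (1785 * C0 + 9690) * (l + l') ^ 4 * Real.log (1 / y0) / √δ := by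
        rw [← hL, ← hℓ]
        ring

end SF
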