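import Pool.Agent.helper68.SF.SpecE

/-!
Block se of problem MP_d52931_gt: divergence theorem on `Dm` with a cutoff in `y`. Only the sum of the two
derivatives has to be integrable.
-/

set_option autoImplicit false

namespace SF

open MeasureTheory
open scoped ContDiff

theorem ENZ_ms : MeasurableSet Dm := by
  refine IsOpen.measurableSet ?_
  refine IsOpen.inter (isOpen_lt continuous_const continuous_fst) ?_
  refine IsOpen.inter (isOpen_lt continuous_fst continuous_const) ?_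
  have h : Continuous fun p : ℝ × ℝ => p.1 ^ 2 + p.2 ^ 2 := by fun_prop
  exact IsOpen.inter (isOpen_lt continuous_const continuous_snd) (isOpen_lt continuous_const h)

theorem ENZ_max (u : ℝ) : HasDerivAt (fun u : ℝ => max u 0 ^ 2) (2 * max u 0) u := by
  rcases lt_trichotomy u 0 with h | h | h
  · rw [max_eq_right h.le, mul_zero]
    refine (hasDerivAt_const u (0 : ℝ)).congr_of_eventuallyEq ?_
    filter_upwards [Iio_mem_nhds h] with v hv
    rw [max_eq_right (le_of_lt hv)]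
    norm_num
  · subst h
    rw [hasDerivAt_iff_isLittleO_nhds_zero]
    have h1 : (fun h : ℝ => max (0 + h) 0 ^ 2 - max (0 : ℝ) 0 ^ 2 - h • (2 * max (0 : ℝ) 0)) =O[nhds 0]
        fun h : ℝ => h ^ 2 := by
      refine Asymptotics.IsBigO.of_bound 1 (Filter.Eventually.of_forall fun h => ?_)
      rw [zero_add, max_self, mul_zero, smul_zero, sub_zero, one_mul]
      norm_num
      rcases le_total h 0 with h0 | h0
      · rw [max_eq_right h0]
        simpa using sq_nonneg h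
      · rw [max_eq_left h0]
    exact h1.trans_isLittleO (Asymptotics.isLittleO_pow_id (by norm_num))
  · rw [max_eq_left h.le]
    have h1 := hasDerivAt_pow 2 u
    simp only [Nat.cast_ofNat, Nat.add_one_sub_one, pow_one] at h1
    refine h1.congr_of_eventuallyEq ?_
    filter_upwards [Ioi_mem_nhds h] with v hv
    rw [max_eq_left (le_of_lt hv)]

/-- the cutoff function -/
noncomputable def ENZ_cut (N y : ℝ) : ℝ := max (1 - (y / N) ^ 2) 0 ^ 2
/-- its derivative -/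
noncomputable def ENZ_cut' (N y : ℝ) : ℝ := 2 * max (1 - (y / N) ^ 2) 0 * (-(2 * y / N ^ 2))

theorem ENZ_cut_deriv (N y : ℝ) : HasDerivAt (ENZ_cut N) (ENZ_cut' N y) y := by
  have h1 : HasDerivAt (fun y : ℝ => 1 - (y / N) ^ 2) (-(2 * y / N ^ 2)) y := by
    have h2 := (((hasDerivAt_id y).div_const N).pow 2).const_sub 1
    refine h2.congr_deriv ?_
    simp only [id]
    rw [div_pow, Nat.cast_ofNat, show 2 - 1 = 1 from rfl, pow_one]
    ring
  exact (ENZ_max (1 - (y / N) ^ 2)).comp y h1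

theorem ENZ_cut_cont (N : ℝ) : Continuous (ENZ_cut N) := by unfold ENZ_cut; fun_prop
theorem ENZ_cut'_cont (N : ℝ) : Continuous (ENZ_cut' N) := by unfold ENZ_cut'; fun_prop

theorem ENZ_cut_max {N y : ℝ} (hN : 0 < N) :
    0 ≤ max (1 - (y / N) ^ 2) 0 ∧ max (1 - (y / N) ^ 2) 0 ≤ 1 ∧
      (N ≤ y → max (1 - (y / N) ^ 2) 0 = 0) := by
  refine ⟨le_max_right _ _, max_le (by nlinarith [sq_nonneg (y / N)]) zero_le_one, fun h => ?_⟩
  refine max_eq_right ?_
  have h1 : 1 ≤ y / N := (one_le_div hN).2 h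
  nlinarith

theorem ENZ_cut_nonneg {N y : ℝ} : 0 ≤ ENZ_cut N y := sq_nonneg _

theorem ENZ_cut_le {N y : ℝ} (hN : 0 < N) : ENZ_cut N y ≤ 1 := by
  obtain ⟨h1, h2, _⟩ := ENZ_cut_max (y := y) hN
  unfold ENZ_cut
  nlinarith

theorem ENZ_cut_zero {N y : ℝ} (hN : 0 < N) (h : N ≤ y) : ENZ_cut N y = 0 := by
  obtain ⟨_, _, h3⟩ := ENZ_cut_max (y := y) hN
  unfold ENZ_cut
  rw [h3 h]
  norm_num

theorem ENZ_cut'_le {N y : ℝ} (hN : 0 < N) (hy : 0 < y) : |ENZ_cut' N y| ≤ 4 / y := by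
  obtain ⟨h1, h2, h3⟩ := ENZ_cut_max (y := y) hN
  by_cases h : N ≤ y
  · unfold ENZ_cut'
    rw [h3 h]
    simp
    positivity
  · have h4 : y < N := not_le.1 h
    unfold ENZ_cut'
    rw [abs_mul, abs_mul, abs_neg, abs_of_pos (show (0 : ℝ) < 2 by norm_num), abs_of_nonneg h1,
      abs_of_nonneg (show (0 : ℝ) ≤ 2 * y / N ^ 2 by positivity)]
    have h5 : 2 * y / N ^ 2 ≤ 2 / y := by
      rw [div_le_div_iff₀ (by positivity) hy]
      nlinarith
    calc 2 * max (1 - (y / N) ^ 2) 0 * (2 * y / N ^ 2) ≤ 2 * 1 * (2 / y) := by gcongr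
      _ = 4 / y := by ring

theorem ENZ_cut'_zero {N y : ℝ} (hN : 0 < N) (h : N ≤ y) : ENZ_cut' N y = 0 := by
  obtain ⟨_, _, h3⟩ := ENZ_cut_max (y := y) hN
  unfold ENZ_cut'
  rw [h3 h]
  ring

theorem ENZ_cut_lim (y : ℝ) : Filter.Tendsto (fun n : ℕ => ENZ_cut ((n : ℝ) + 1) y) Filter.atTop (nhds 1) := by
  have h1 : Filter.Tendsto (fun n : ℕ => y / ((n : ℝ) + 1)) Filter.atTop (nhds 0) :=
    tendsto_const_nhds.div_atTop (Filter.tendsto_atTop_add_const_right _ _ tendsto_natCast_atTop_atTop)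
  have h2 : Continuous fun u : ℝ => max (1 - u ^ 2) 0 ^ 2 := by fun_prop
  have h3 := (h2.tendsto 0).comp h1
  have h4 : max (1 - (0 : ℝ) ^ 2) 0 ^ 2 = 1 := by norm_num
  rw [h4] at h3
  exact h3

theorem ENZ_cut'_lim (y : ℝ) : Filter.Tendsto (fun n : ℕ => ENZ_cut' ((n : ℝ) + 1) y) Filter.atTop (nhds 0) := by
  have h1 : Filter.Tendsto (fun n : ℕ => y / ((n : ℝ) + 1)) Filter.atTop (nhds 0) :=
    tendsto_const_nhds.div_atTop (Filter.tendsto_atTop_add_const_right _ _ tendsto_natCast_atTop_atTop)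
  have h1' : Filter.Tendsto (fun n : ℕ => 2 / ((n : ℝ) + 1)) Filter.atTop (nhds 0) :=
    tendsto_const_nhds.div_atTop (Filter.tendsto_atTop_add_const_right _ _ tendsto_natCast_atTop_atTop)
  have h2 : Continuous fun u : ℝ => 2 * max (1 - u ^ 2) 0 := by fun_prop
  have h3 := ((h2.tendsto 0).comp h1).mul (h1.mul h1').neg
  have h4 : 2 * max (1 - (0 : ℝ) ^ 2) 0 * -(0 * 0) = 0 := by norm_num
  rw [h4] at h3
  refine h3.congr fun n => ?_
  have hn : ((n : ℝ) + 1) ≠ 0 := by positivity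
  show 2 * max (1 - (y / ((n : ℝ) + 1)) ^ 2) 0 * -(y / ((n : ℝ) + 1) * (2 / ((n : ℝ) + 1))) =
    ENZ_cut' ((n : ℝ) + 1) y
  unfold ENZ_cut'
  congr 2
  field_simp

/-- functions with a cutoff factor are integrable -/
theorem ENZ_int (hDI : DI_stmt) (F : ℝ × ℝ → ℝ) (N : ℝ) (hN : 0 < N)
    (cF : ContinuousOn F {p | 0 < p.2}) (h0 : ∀ p : ℝ × ℝ, N ≤ p.2 → F p = 0) :
    IntegrableOn F Dm := by
  have hK : IsCompact (Set.Icc (0 : ℝ) (1 / 2) ×ˢ Set.Icc (1 : ℝ) (N + 1)) :=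
    isCompact_Icc.prod isCompact_Icc
  obtain ⟨K, hK⟩ := hK.exists_bound_of_continuousOn (cF.mono fun p hp => by
    have := hp.2.1
    show 0 < p.2
    linarith)
  refine hDI F (|K| * (N + 1) ^ 2) cF fun p hp h1 => ?_
  have hp2 : 0 < p.2 := hp.2.2.1
  rw [le_div_iff₀ (by positivity)]
  by_cases h : N ≤ p.2
  · rw [h0 p h, abs_zero, zero_mul]
    positivity
  · have h2 : p.2 ≤ N + 1 := by linarith [not_le.1 h]
    have h3 := hK p ⟨⟨hp.1.le, hp.2.1.le⟩, ⟨h1, h2⟩⟩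
    rw [Real.norm_eq_abs] at h3
    have h4 : |F p| ≤ |K| := h3.trans (le_abs_self K)
    have h5 : p.2 ^ 2 ≤ (N + 1) ^ 2 := by gcongr
    exact mul_le_mul h4 h5 (by positivity) (abs_nonneg _)

/-- the divergence theorem: `F'`, `G'` need not be integrable, only their sum. -/
theorem ENZ_div (hDX : DX_stmt) (hDY : DY_stmt) (hDI : DI_stmt) (F F' G G' : ℝ × ℝ → ℝ) (C : ℝ)
    (cF' : ContinuousOn F' {p | 0 < p.2}) (cG : ContinuousOn G {p | 0 < p.2})
    (cG' : ContinuousOn G' {p | 0 < p.2})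
    (dF : ∀ x y : ℝ, 0 < y → HasDerivAt (fun t => F (t, y)) (F' (x, y)) x)
    (dG : ∀ x y : ℝ, 0 < y → HasDerivAt (fun t => G (x, t)) (G' (x, y)) y)
    (b1 : ∀ y : ℝ, 0 < y → F (0, y) = 0 ∧ F (1 / 2, y) = 0)
    (b2 : ∀ x y : ℝ, 0 < y → x ^ 2 + y ^ 2 = 1 → F (x, y) = 0)
    (b3 : ∀ x y : ℝ, 0 < y → x ^ 2 + y ^ 2 = 1 → G (x, y) = 0)
    (hC : ∀ p ∈ Dm, 1 ≤ p.2 → |G p| ≤ C / p.2)
    (hI : IntegrableOn (fun p => F' p + G' p) Dm) : ∫ p in Dm, (F' p + G' p) = 0 := by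
  have cs : ∀ g : ℝ → ℝ, Continuous g → ContinuousOn (fun p : ℝ × ℝ => g p.2) {p | 0 < p.2} :=
    fun g hg => (hg.comp continuous_snd).continuousOn
  have key : ∀ N : ℝ, 0 < N →
      IntegrableOn (fun p => ENZ_cut N p.2 * F' p + (ENZ_cut' N p.2 * G p + ENZ_cut N p.2 * G' p)) Dm ∧
      ∫ p in Dm, (ENZ_cut N p.2 * F' p + (ENZ_cut' N p.2 * G p + ENZ_cut N p.2 * G' p)) = 0 := by
    intro N hN
    have c1 : ContinuousOn (fun p : ℝ × ℝ => ENZ_cut N p.2 * F' p) {p | 0 < p.2} :=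
      (cs _ (ENZ_cut_cont N)).mul cF'
    have c2 : ContinuousOn (fun p : ℝ × ℝ => ENZ_cut' N p.2 * G p + ENZ_cut N p.2 * G' p) {p | 0 < p.2} :=
      ((cs _ (ENZ_cut'_cont N)).mul cG).add ((cs _ (ENZ_cut_cont N)).mul cG')
    have i1 : IntegrableOn (fun p : ℝ × ℝ => ENZ_cut N p.2 * F' p) Dm :=
      ENZ_int hDI _ N hN c1 fun p hp => by rw [ENZ_cut_zero hN hp, zero_mul]
    have i2 : IntegrableOn (fun p : ℝ × ℝ => ENZ_cut' N p.2 * G p + ENZ_cut N p.2 * G' p) Dm :=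
      ENZ_int hDI _ N hN c2 fun p hp => by rw [ENZ_cut_zero hN hp, ENZ_cut'_zero hN hp]; ring
    have e1 : ∫ p in Dm, ENZ_cut N p.2 * F' p = 0 := by
      refine hDX (fun p => ENZ_cut N p.2 * F p) _ c1 (fun x y hy => (dF x y hy).const_mul (ENZ_cut N y))
        (fun y hy => ?_) (fun x y hy h => ?_) i1
      · exact ⟨by simp only [(b1 y hy).1, mul_zero], by simp only [(b1 y hy).2, mul_zero]⟩
      · simp only [b2 x y hy h, mul_zero]
    have e2 : ∫ p in Dm, (ENZ_cut' N p.2 * G p + ENZ_cut N p.2 * G' p) = 0 := by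
      refine hDY (fun p => ENZ_cut N p.2 * G p) _ c2 (fun x y hy => (ENZ_cut_deriv N y).mul (dG x y hy))
        (fun x y hy h => ?_) (fun x => ?_) i2
      · simp only [b3 x y hy h, mul_zero]
      · refine tendsto_const_nhds.congr' ?_
        filter_upwards [Filter.eventually_ge_atTop N] with y hy
        simp only [ENZ_cut_zero hN hy, zero_mul]
    refine ⟨i1.add i2, ?_⟩
    rw [integral_add i1 i2, e1, e2, add_zero]
  have hlim : Filter.Tendsto (fun n : ℕ => ∫ p in Dm, (ENZ_cut ((n : ℝ) + 1) p.2 * F' p +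
      (ENZ_cut' ((n : ℝ) + 1) p.2 * G p + ENZ_cut ((n : ℝ) + 1) p.2 * G' p))) Filter.atTop
      (nhds (∫ p in Dm, (F' p + G' p))) := by
    refine tendsto_integral_of_dominated_convergence
      (fun p : ℝ × ℝ => |F' p + G' p| + 4 / p.2 * |G p|)
      (fun n => (key ((n : ℝ) + 1) (by positivity)).1.aestronglyMeasurable) ?_ ?_ ?_
    · refine hI.abs.add ?_
      refine hDI _ (4 * C) ?_ fun p hp h1 => ?_
      · exact (continuousOn_const.div continuous_snd.continuousOn fun p hp => ne_of_gt hp).mul cG.abs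
      · have hp2 : 0 < p.2 := hp.2.2.1
        rw [abs_mul, abs_abs, abs_of_pos (by positivity)]
        calc 4 / p.2 * |G p| ≤ 4 / p.2 * (C / p.2) := by
              gcongr
              exact hC p hp h1
          _ = 4 * C / p.2 ^ 2 := by
              field_simp
    · intro n
      refine (ae_restrict_iff' ENZ_ms).2 (Filter.Eventually.of_forall fun p hp => ?_)
      have hp2 : 0 < p.2 := hp.2.2.1
      have hn : (0 : ℝ) < (n : ℝ) + 1 := by positivity
      rw [Real.norm_eq_abs]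
      calc |ENZ_cut ((n : ℝ) + 1) p.2 * F' p +
            (ENZ_cut' ((n : ℝ) + 1) p.2 * G p + ENZ_cut ((n : ℝ) + 1) p.2 * G' p)| =
          |ENZ_cut ((n : ℝ) + 1) p.2 * (F' p + G' p) + ENZ_cut' ((n : ℝ) + 1) p.2 * G p| := by ring_nf
        _ ≤ |ENZ_cut ((n : ℝ) + 1) p.2 * (F' p + G' p)| + |ENZ_cut' ((n : ℝ) + 1) p.2 * G p| := abs_add_le _ _
        _ = ENZ_cut ((n : ℝ) + 1) p.2 * |F' p + G' p| + |ENZ_cut' ((n : ℝ) + 1) p.2| * |G p| := by
            rw [abs_mul, abs_mul, abs_of_nonneg ENZ_cut_nonneg]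
        _ ≤ 1 * |F' p + G' p| + 4 / p.2 * |G p| := by
            gcongr
            · exact ENZ_cut_le hn
            · exact ENZ_cut'_le hn hp2
        _ = |F' p + G' p| + 4 / p.2 * |G p| := by rw [one_mul]
    · refine Filter.Eventually.of_forall fun p => ?_
      have h1 := ((ENZ_cut_lim p.2).mul_const (F' p)).add
        (((ENZ_cut'_lim p.2).mul_const (G p)).add ((ENZ_cut_lim p.2).mul_const (G' p)))
      have h2 : 1 * F' p + (0 * G p + 1 * G' p) = F' p + G' p := by ring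
      rw [h2] at h1
      exact h1
  have h0 : (fun n : ℕ => ∫ p in Dm, (ENZ_cut ((n : ℝ) + 1) p.2 * F' p +
      (ENZ_cut' ((n : ℝ) + 1) p.2 * G p + ENZ_cut ((n : ℝ) + 1) p.2 * G' p))) = fun _ => 0 :=
    funext fun n => (key _ (by positivity)).2
  rw [h0] at hlim
  exact tendsto_nhds_unique hlim tendsto_const_nhds

end SF
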